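import Pool.Agent.U204.PN.Stm

/-!
# Project PN, part FOUR: finite Fourier inversion
-/

set_option autoImplicit false

open MeasureTheory Filter Topology Finset

namespace Pool.Agent.U705.PN.FOUR

open Pool.Agent.U204.PN

/-- the additive character modulo `M` -/
noncomputable def ch (M : ℕ) (x : ℤ) : ℂ :=
  Complex.exp (2 * Real.pi * Complex.I * (x : ℂ) / (M : ℂ))

theorem ch_add (M : ℕ) (x y : ℤ) : ch M (x + y) = ch M x * ch M y := by
  rw [ch, ch, ch, ← Complex.exp_add]
  congr 1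
  push_cast
  ring

theorem ch_zero (M : ℕ) : ch M 0 = 1 := by simp [ch]

theorem ch_sum (M : ℕ) {ι : Type} (s : Finset ι) (f : ι → ℤ) :
    ch M (∑ i ∈ s, f i) = ∏ i ∈ s, ch M (f i) := by
  classical
  induction s using Finset.induction_on with
  | empty => simp [ch_zero]
  | insert i s hi ih => rw [Finset.sum_insert hi, Finset.prod_insert hi, ch_add, ih]

theorem ch_mul (M : ℕ) (c : ℕ) (x : ℤ) : ch M (c * x) = ch M x ^ c := by
  rw [ch, ch, ← Complex.exp_nat_mul]
  congr 1
  push_cast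
  ring

theorem ch_eq_one {M : ℕ} (hM : 1 ≤ M) (x : ℤ) : ch M x = 1 ↔ (M : ℤ) ∣ x := by
  have hM0 : (M : ℂ) ≠ 0 := by
    have : M ≠ 0 := by omega
    exact_mod_cast this
  have hpi : (2 * Real.pi * Complex.I : ℂ) ≠ 0 := Complex.two_pi_I_ne_zero
  rw [ch, Complex.exp_eq_one_iff]
  constructor
  · rintro ⟨n, hn⟩
    refine ⟨n, ?_⟩
    rw [div_eq_iff hM0] at hn
    have h2 : (2 * Real.pi * Complex.I : ℂ) * (x : ℂ) =
        (2 * Real.pi * Complex.I : ℂ) * ((M : ℂ) * n) := by
      rw [hn]; ring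
    have h3 := mul_left_cancel₀ hpi h2
    exact_mod_cast h3
  · rintro ⟨n, hn⟩
    refine ⟨n, ?_⟩
    rw [div_eq_iff hM0, hn]
    push_cast
    ring

theorem orth {M : ℕ} (hM : 1 ≤ M) (x : ℤ) :
    ∑ c ∈ range M, ch M (c * x) = if (M : ℤ) ∣ x then (M : ℂ) else 0 := by
  simp only [ch_mul]
  by_cases h : (M : ℤ) ∣ x
  · rw [if_pos h, (ch_eq_one hM x).2 h]
    simp
  · rw [if_neg h, geom_sum_eq (fun h1 => h ((ch_eq_one hM x).1 h1)), ← ch_mul,
      (ch_eq_one hM _).2 (Dvd.intro _ rfl)]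
    simp

open Classical in
theorem ind {M : ℕ} (hM : 1 ≤ M) (k : ℕ) (v : Fin k → ℤ) (b : Fin k → ℤ) :
    (if ∀ j, (M : ℤ) ∣ v j - b j then (M : ℂ) ^ k else 0) =
      ∑ c ∈ Fintype.piFinset fun _ : Fin k => range M,
        ch M (-∑ j, (c j : ℤ) * b j) * ch M (∑ j, (c j : ℤ) * v j) := by
  have h1 : (if ∀ j, (M : ℤ) ∣ v j - b j then (M : ℂ) ^ k else 0) =
      ∏ j : Fin k, ∑ c ∈ range M, ch M (c * (v j - b j)) := by
    simp only [orth hM]
    by_cases h : ∀ j, (M : ℤ) ∣ v j - b j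
    · rw [if_pos h, Finset.prod_congr rfl fun j _ => if_pos (h j)]
      simp
    · rw [if_neg h]
      push Not at h
      obtain ⟨j, hj⟩ := h
      exact (Finset.prod_eq_zero (Finset.mem_univ j) (if_neg hj)).symm
  rw [h1, Finset.prod_univ_sum]
  refine Finset.sum_congr rfl fun c _ => ?_
  rw [← ch_sum, ← ch_add]
  congr 1
  rw [← Finset.sum_neg_distrib, ← Finset.sum_add_distrib]
  exact Finset.sum_congr rfl fun j _ => by ring

theorem mean {M : ℕ} (k : ℕ) (a : ℕ → ℤ)
    (h : ∀ k' < k, ∀ c : Fin (k' + 1) → ℤ, ¬ (M : ℤ) ∣ c (Fin.last k') →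
      Tendsto (fun N : ℕ => (∑ n ∈ range N, Complex.exp (2 * Real.pi * Complex.I *
      ((∑ j, c j * a (n + j) : ℤ) : ℂ) / (M : ℂ))) / (N : ℂ)) atTop (𝓝 0))
    (c : Fin k → ℕ) (hc : ∀ j, c j < M) (hc0 : c ≠ 0) :
    Tendsto (fun N : ℕ => (∑ n ∈ range N, ch M (∑ j, (c j : ℤ) * a (n + j))) / (N : ℂ))
      atTop (𝓝 0) := by
  classical
  have hne : (univ.filter fun j : Fin k => c j ≠ 0).Nonempty := by
    obtain ⟨j, hj⟩ := Function.ne_iff.1 hc0
    exact ⟨j, by simpa using hj⟩
  set m := (univ.filter fun j : Fin k => c j ≠ 0).max' hne with hm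
  have hm0 : c m ≠ 0 := by
    have := Finset.max'_mem _ hne
    simpa using this
  have hmax : ∀ j : Fin k, m < j → c j = 0 := by
    intro j hj
    by_contra hcj
    have := Finset.le_max' (univ.filter fun j : Fin k => c j ≠ 0) j (by simpa using hcj)
    exact absurd (lt_of_lt_of_le hj this) (lt_irrefl _)
  let d : ℕ → ℤ := fun j => if hj : j < k then (c ⟨j, hj⟩ : ℤ) else 0
  have hd : ∀ j : Fin k, d j = c j := fun j => by simp [d, j.2]
  have key : ∀ n : ℕ, ∑ j : Fin k, (c j : ℤ) * a (n + j) =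
      ∑ j : Fin ((m : ℕ) + 1), d j * a (n + j) := by
    intro n
    rw [Fin.sum_univ_eq_sum_range (fun j => d j * a (n + j)) ((m : ℕ) + 1)]
    have e1 : ∑ j : Fin k, (c j : ℤ) * a (n + j) = ∑ j : Fin k, d j * a (n + j) :=
      Finset.sum_congr rfl fun j _ => by rw [hd]
    rw [e1, Fin.sum_univ_eq_sum_range (fun j => d j * a (n + j)) k]
    symm
    refine Finset.sum_subset (fun j hj => ?_) fun j hj hj2 => ?_
    · have h1 := Finset.mem_range.1 hj
      have h2 := m.2
      exact Finset.mem_range.2 (by omega)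
    · have h1 := Finset.mem_range.1 hj
      have h2 : ¬ j < (m : ℕ) + 1 := fun h3 => hj2 (Finset.mem_range.2 h3)
      have h3 : c ⟨j, h1⟩ = 0 := hmax _ (by
        rw [Fin.lt_def]
        show (m : ℕ) < j
        omega)
      have h4 : d j = 0 := by simp [d, h1, h3]
      rw [h4, zero_mul]
  have hfin := h m m.2 (fun j => d j) (by
    show ¬ (M : ℤ) ∣ d ((Fin.last (m : ℕ) : Fin ((m : ℕ) + 1)) : ℕ)
    rw [Fin.val_last, hd]
    intro hdvd
    have h5 : M ∣ c m := by exact_mod_cast hdvd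
    have h6 := Nat.le_of_dvd (Nat.pos_of_ne_zero hm0) h5
    have h7 := hc m
    omega)
  refine hfin.congr fun N => ?_
  congr 1
  refine Finset.sum_congr rfl fun n _ => ?_
  rw [ch, key n]

theorem t_FOUR : S_FOUR := by
  classical
  intro M k a hM h b
  choose β hβ using fun j => ZMod.intCast_surjective (b j)
  have hM0 : (M : ℂ) ≠ 0 := by
    have : M ≠ 0 := by omega
    exact_mod_cast this
  have hiff : ∀ n : ℕ, (∀ j : Fin k, ((a (n + j) : ℤ) : ZMod M) = b j) ↔
      ∀ j : Fin k, (M : ℤ) ∣ a (n + j) - β j := by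
    intro n
    refine forall_congr' fun j => ?_
    rw [← hβ j, ← ZMod.intCast_zmod_eq_zero_iff_dvd, Int.cast_sub, sub_eq_zero]
  -- the counting function
  have hcount : ∀ N : ℕ, ((((range N).filter fun n => ∀ j : Fin k,
      ((a (n + j) : ℤ) : ZMod M) = b j).card : ℝ) : ℂ) / (N : ℂ) =
      ((M : ℂ) ^ k)⁻¹ * ∑ c ∈ Fintype.piFinset fun _ : Fin k => range M,
        ch M (-∑ j, (c j : ℤ) * β j) *
          ((∑ n ∈ range N, ch M (∑ j, (c j : ℤ) * a (n + j))) / (N : ℂ)) := by
    intro N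
    have h1 : (((range N).filter fun n => ∀ j : Fin k,
        ((a (n + j) : ℤ) : ZMod M) = b j).card : ℂ) * (M : ℂ) ^ k =
        ∑ c ∈ Fintype.piFinset fun _ : Fin k => range M, ch M (-∑ j, (c j : ℤ) * β j) *
          ∑ n ∈ range N, ch M (∑ j, (c j : ℤ) * a (n + j)) := by
      calc (((range N).filter fun n => ∀ j : Fin k,
          ((a (n + j) : ℤ) : ZMod M) = b j).card : ℂ) * (M : ℂ) ^ k
          = ∑ n ∈ range N, if ∀ j : Fin k, (M : ℤ) ∣ a (n + j) - β j then (M : ℂ) ^ k else 0 := by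
            rw [← Finset.sum_filter, Finset.sum_const, nsmul_eq_mul]
            congr 3
            exact Finset.filter_congr fun n _ => hiff n
        _ = ∑ n ∈ range N, ∑ c ∈ Fintype.piFinset fun _ : Fin k => range M,
              ch M (-∑ j, (c j : ℤ) * β j) * ch M (∑ j, (c j : ℤ) * a (n + j)) :=
            Finset.sum_congr rfl fun n _ => ind hM k (fun j => a (n + j)) β
        _ = _ := by
            rw [Finset.sum_comm]
            exact Finset.sum_congr rfl fun c _ => (Finset.mul_sum _ _ _).symm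
    have h2 : ((((range N).filter fun n => ∀ j : Fin k,
        ((a (n + j) : ℤ) : ZMod M) = b j).card : ℝ) : ℂ) =
        ((M : ℂ) ^ k)⁻¹ * ∑ c ∈ Fintype.piFinset fun _ : Fin k => range M,
          ch M (-∑ j, (c j : ℤ) * β j) * ∑ n ∈ range N, ch M (∑ j, (c j : ℤ) * a (n + j)) := by
      rw [← h1, Complex.ofReal_natCast]
      field_simp
    rw [h2, mul_div_assoc, Finset.sum_div]
    congr 1
    exact Finset.sum_congr rfl fun c _ => by rw [mul_div_assoc]
  have hlim : Tendsto (fun N : ℕ => ((((range N).filter fun n => ∀ j : Fin k,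
      ((a (n + j) : ℤ) : ZMod M) = b j).card : ℝ) : ℂ) / (N : ℂ)) atTop
      (𝓝 (((M : ℂ) ^ k)⁻¹ * ∑ c ∈ Fintype.piFinset fun _ : Fin k => range M,
        ch M (-∑ j, (c j : ℤ) * β j) * (if c = 0 then 1 else 0))) := by
    simp only [hcount]
    refine Tendsto.const_mul _ (tendsto_finsetSum _ fun c hc => Tendsto.const_mul _ ?_)
    by_cases h0 : c = 0
    · rw [if_pos h0]
      refine Tendsto.congr' ?_ tendsto_const_nhds
      filter_upwards [eventually_ge_atTop 1] with N hN
      have hN0 : (N : ℂ) ≠ 0 := by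
        have : N ≠ 0 := by omega
        exact_mod_cast this
      simp [h0, ch_zero, hN0]
    · rw [if_neg h0]
      exact mean k a h c (fun j => Finset.mem_range.1 (Fintype.mem_piFinset.1 hc j)) h0
  have hval : ((M : ℂ) ^ k)⁻¹ * ∑ c ∈ Fintype.piFinset fun _ : Fin k => range M,
        ch M (-∑ j, (c j : ℤ) * β j) * (if c = 0 then 1 else 0) = ((((M : ℝ) ^ k)⁻¹ : ℝ) : ℂ) := by
    have h3 : ∑ c ∈ Fintype.piFinset fun _ : Fin k => range M,
        ch M (-∑ j, (c j : ℤ) * β j) * (if c = 0 then (1 : ℂ) else 0) = 1 := by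
      rw [Finset.sum_eq_single (0 : Fin k → ℕ)]
      · simp [ch_zero]
      · intro c _ hc
        rw [if_neg hc, mul_zero]
      · intro hn
        exfalso
        exact hn (Fintype.mem_piFinset.2 fun j => Finset.mem_range.2 (by
          show 0 < M
          omega))
    rw [h3, mul_one]
    push_cast
    rfl
  rw [hval] at hlim
  have h4 := (Complex.continuous_re.tendsto _).comp hlim
  rw [Complex.ofReal_re] at h4
  refine h4.congr fun N => ?_
  show ((((((range N).filter fun n => ∀ j : Fin k,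
      ((a (n + j) : ℤ) : ZMod M) = b j).card : ℝ) : ℂ) / (N : ℂ))).re = _
  rw [← Complex.ofReal_natCast N, ← Complex.ofReal_div, Complex.ofReal_re]

end Pool.Agent.U705.PN.FOUR
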